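import Pool.Agent.H4.AV.Res

/-!
# The average rank of all quadratic twists of `y ^ 2 = f(x) - t` is at most `4 / 3`

Let `k` be a finite field of odd order `q` (the characteristic may be three), `K = k(t)`, `f` a monic
cubic polynomial over `k` with `f' ≠ 0`, and `u ≠ 0` in `k`. For a polynomial `D` let `E_D` be the
elliptic curve `u D(t) y ^ 2 = f(x) - t` over `K`. Let `Fam f n` be the set of all monic squarefree
polynomials `D` of degree `n` which are prime to the discriminant of `f(X) - t`; for `n ≥ 4` it has at
least `(2 / 9) q ^ n` elements. For every `ε > 0` there is an `n0`, which depends on `ε` only, such that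
for all `k`, `f`, `u` and all `n ≥ n0` the mean value over `Fam f n` of the dimension over the field
with two elements of the Selmer group `Sel_2(E_D)`, and so of the dimension of `E_D(K) / 2 E_D(K)` and
of the rank of `E_D(K)`, is at most `4 / 3 + ε`.

The heart is that the mean value of the order of the Selmer group is at most three for the `D` with
an even, and for the `D` with an odd number of prime factors `P` modulo which `f(X) = t` has exactly
one root; these numbers have the parity of the dimension, and
`log_2 N ≤ (2 / 3) (N - 1)` for `N = 1, 4, 16, …`, `log_2 N ≤ 1 + (N - 2) / 3` for `N = 2, 8, 32, …`.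
-/

set_option autoImplicit false
set_option linter.all false

open Polynomial
open scoped Classical

namespace Pool.Agent.Results.MP_81dc49_nt.TwistAverageRank

open Pool.Agent.H4.SA (dsc Cub)
open Pool.Agent.H4.SL (tw SelTwo ModTwo)
open Pool.Agent.H4.AV
open Pool.Agent.TH115.GD (Pt)

/-- The dimension of the Selmer group at two of `u D(t) y ^ 2 = f(x) - t`: the logarithm with the
base two of its order. -/
noncomputable def selDim (K : Type) {k : Type} [Field k] [Field K] [Algebra k[X] K]
    [IsFractionRing k[X] K] (f : k[X]) (u : k) (D : k[X]) : ℝ := Real.logb 2 (sel K f u D)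

/-- The dimension of the group of the rational points modulo two. -/
noncomputable def modDim (K : Type) {k : Type} [Field k] [Field K] [Algebra k[X] K]
    [IsFractionRing k[X] K] (f : k[X]) (u : k) (D : k[X]) : ℝ :=
  Real.logb 2 (Nat.card (ModTwo (tw K f (C u * D))))

/-- The rank of the group of the rational points if this group is finitely generated (it is, by the
theorem of Lang and Neron), and zero otherwise. -/
noncomputable def rk (K : Type) {k : Type} [Field k] [Field K] [Algebra k[X] K]
    [IsFractionRing k[X] K] (f : k[X]) (u : k) (D : k[X]) : ℕ :=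
  if Module.Finite ℤ (Pt (tw K f (C u * D)) K) then
    Module.finrank ℤ (Pt (tw K f (C u * D)) K) else 0

theorem result (ε : ℝ) (hε : 0 < ε) : ∃ n0 : ℕ, ∀ (k K : Type) [Field k] [Fintype k] [Field K]
    [Algebra k[X] K] [IsFractionRing k[X] K] (f : k[X]) (u : k),
    (2 : k) ≠ 0 → f.Monic → f.natDegree = 3 → derivative f ≠ 0 → u ≠ 0 → ∀ n, n0 ≤ n →
      2 / 9 * (Fintype.card k : ℝ) ^ n ≤ (Fam f n).ncard ∧
      (∀ D ∈ Fam f n, Finite (SelTwo k (tw K f (C u * D))) ∧
        Finite (ModTwo (tw K f (C u * D))) ∧ (rk K f u D : ℝ) ≤ modDim K f u D ∧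
        modDim K f u D ≤ selDim K f u D) ∧
      ∑ᶠ D ∈ Fam f n, selDim K f u D ≤ (4 / 3 + ε) * (Fam f n).ncard ∧
      ∑ᶠ D ∈ Fam f n, (rk K f u D : ℝ) ≤ (4 / 3 + ε) * (Fam f n).ncard := by
  obtain ⟨n0, h0⟩ := log_average ε hε
  refine ⟨max n0 4, fun k K _ _ _ _ _ f u h2 hm hd hder hu n hn => ?_⟩
  have hf : Cub f := ⟨h2, hm, hd, hder⟩
  have g1 := h0 k K f u hf hu n ((le_max_left _ _).trans hn)
  have h4 : ∀ D ∈ Fam f n, Finite (SelTwo k (tw K f (C u * D))) ∧
        Finite (ModTwo (tw K f (C u * D))) ∧ (rk K f u D : ℝ) ≤ modDim K f u D ∧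
        modDim K f u D ≤ selDim K f u D := by
    intro D hD
    obtain ⟨h1, h3, -⟩ := sel_le (K := K) hf hu hD
    obtain ⟨h5, h6⟩ := mw_le (K := K) hf hu hD
    haveI := h5
    have h8 : (0 : ℝ) < Nat.card (ModTwo (tw K f (C u * D))) := by
      exact_mod_cast Nat.card_pos
    refine ⟨h1, h5, ?_, ?_⟩
    · unfold rk
      split_ifs with hfin
      · have h7 : 2 ^ Module.finrank ℤ (Pt (tw K f (C u * D)) K) ≤
            Nat.card (ModTwo (tw K f (C u * D))) := by
          have h4 : Pool.Agent.X261.TD.indexTwo (Pt (tw K f (C u * D)) K) ≠ 0 :=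
            (Nat.card_pos (α := ModTwo (tw K f (C u * D)))).ne'
          exact Pool.Agent.X261.TD.two_pow_rank_le h4 hfin
        have h9 : ((2 : ℝ)) ^ (Module.finrank ℤ (Pt (tw K f (C u * D)) K)) ≤
            Nat.card (ModTwo (tw K f (C u * D))) := by exact_mod_cast h7
        unfold modDim
        rw [Real.le_logb_iff_rpow_le (by norm_num) h8, Real.rpow_natCast]
        exact h9
      · have h7 : (1 : ℝ) ≤ Nat.card (ModTwo (tw K f (C u * D))) := by
          exact_mod_cast (Nat.card_pos (α := ModTwo (tw K f (C u * D))))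
        unfold modDim
        rw [Nat.cast_zero]
        exact Real.logb_nonneg (by norm_num) h7
    · unfold modDim selDim
      exact Real.logb_le_logb_of_le (by norm_num) h8 (by exact_mod_cast h6)
  refine ⟨card_Fam_ge hf ((le_max_right _ _).trans hn), h4, g1, ?_⟩
  refine le_trans ?_ g1
  rw [finsum_eq hf n, finsum_eq hf n]
  refine Finset.sum_le_sum fun D hD => ?_
  obtain ⟨-, -, h5, h6⟩ := h4 D (mem_Fam.2 hD)
  exact h5.trans h6

end Pool.Agent.Results.MP_81dc49_nt.TwistAverageRank
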